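import Pool.Agent.N463.MI.Stm

/-!
Project MI, part B01: the kernel lemma
`|sinh s / (cosh s - cos φ) - 2 s / (s ^ 2 + φ ^ 2)| ≤ s`.
-/

set_option autoImplicit false

namespace Pool.Agent.N123.MIB01

open Real

lemma sin_lower {x : ℝ} (hx : 0 ≤ x) : x - x ^ 3 / 6 ≤ sin x := by
  have h : MonotoneOn (fun x : ℝ => sin x - (x - x ^ 3 / 6)) (Set.Ici 0) := by
    refine monotoneOn_of_deriv_nonneg (convex_Ici 0) (by fun_prop) (by fun_prop) ?_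
    intro y hy
    have h1 : HasDerivAt (fun x : ℝ => sin x - (x - x ^ 3 / 6)) (cos y - (1 - 3 * y ^ 2 / 6)) y := by
      have h2 : HasDerivAt (fun x : ℝ => sin x - (x - x ^ 3 / 6))
          (cos y - (1 - ((3 : ℕ) : ℝ) * y ^ (3 - 1) / 6)) y :=
        (Real.hasDerivAt_sin y).sub ((hasDerivAt_id y).sub ((hasDerivAt_pow 3 y).div_const 6))
      refine h2.congr_deriv ?_
      norm_num
    rw [h1.deriv]
    have := Real.one_sub_sq_div_two_le_cos (x := y)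
    linarith
  have h1 := h (Set.mem_Ici.2 le_rfl) (Set.mem_Ici.2 hx) hx
  simp only [sin_zero] at h1
  linarith

lemma cos_upper0 {x : ℝ} (hx : 0 ≤ x) : cos x ≤ 1 - x ^ 2 / 2 + x ^ 4 / 24 := by
  have h : MonotoneOn (fun x : ℝ => (1 - x ^ 2 / 2 + x ^ 4 / 24) - cos x) (Set.Ici 0) := by
    refine monotoneOn_of_deriv_nonneg (convex_Ici 0) (by fun_prop) (by fun_prop) ?_
    intro y hy
    rw [interior_Ici] at hy
    have hy0 : 0 ≤ y := (Set.mem_Ioi.1 hy).le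
    have h1 : HasDerivAt (fun x : ℝ => (1 - x ^ 2 / 2 + x ^ 4 / 24) - cos x)
        (-(2 * y / 2) + 4 * y ^ 3 / 24 + sin y) y := by
      have h2 : HasDerivAt (fun x : ℝ => (1 - x ^ 2 / 2 + x ^ 4 / 24) - cos x)
          (0 - ((2 : ℕ) : ℝ) * y ^ (2 - 1) / 2 + ((4 : ℕ) : ℝ) * y ^ (4 - 1) / 24 - -sin y) y :=
        (((hasDerivAt_const y (1 : ℝ)).sub ((hasDerivAt_pow 2 y).div_const 2)).add
          ((hasDerivAt_pow 4 y).div_const 24)).sub (Real.hasDerivAt_cos y)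
      refine h2.congr_deriv ?_
      norm_num
    rw [h1.deriv]
    have := sin_lower hy0
    linarith
  have h1 := h (Set.mem_Ici.2 le_rfl) (Set.mem_Ici.2 hx) hx
  simp only [cos_zero] at h1
  linarith

lemma cos_upper (x : ℝ) : cos x ≤ 1 - x ^ 2 / 2 + x ^ 4 / 24 := by
  have h := cos_upper0 (abs_nonneg x)
  rw [Real.cos_abs] at h
  have h1 : |x| ^ 2 = x ^ 2 := sq_abs x
  have h2 : |x| ^ 4 = x ^ 4 := by
    rw [show (4 : ℕ) = 2 * 2 by rfl, pow_mul, pow_mul, h1]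
  rw [h1, h2] at h
  exact h

lemma cosh_lower (s : ℝ) : 1 + s ^ 2 / 2 ≤ cosh s := by
  have h1 : cosh s = 1 + 2 * sinh (s / 2) ^ 2 := by
    have h2 := Real.cosh_two_mul (s / 2)
    rw [mul_div_cancel₀ s two_ne_zero, Real.cosh_sq] at h2
    rw [h2]
    ring
  have h2 : (s / 2) ^ 2 ≤ sinh (s / 2) ^ 2 := by
    rw [← sq_abs (s / 2), ← sq_abs (sinh (s / 2))]
    rw [Real.abs_sinh]
    have h3 : |s / 2| ≤ sinh |s / 2| := Real.self_le_sinh_iff.2 (abs_nonneg _)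
    exact pow_le_pow_left₀ (abs_nonneg _) h3 2
  rw [h1]
  nlinarith

lemma exp_bd {s : ℝ} (hs : |s| ≤ 1) :
    |exp s - (1 + s + s ^ 2 / 2 + s ^ 3 / 6)| ≤ |s| ^ 4 * (5 / 96) := by
  have h := Real.exp_bound hs (n := 4) (by norm_num)
  simp only [Finset.sum_range_succ, Finset.sum_range_zero, Nat.factorial] at h
  norm_num at h
  exact h

lemma both {s : ℝ} (h0 : 0 < s) (h1 : s ≤ 1) :
    sinh s ≤ s + s ^ 3 / 4 ∧ cosh s ≤ 1 + s ^ 2 / 2 + s ^ 4 / 10 := by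
  have hs : |s| = s := abs_of_pos h0
  have e1 := exp_bd (s := s) (by rw [hs]; exact h1)
  have e2 := exp_bd (s := -s) (by rw [abs_neg, hs]; exact h1)
  rw [abs_neg] at e2
  rw [hs] at e1 e2
  rw [abs_le] at e1 e2
  have h4 : s ^ 4 ≤ s ^ 3 := by
    have : s ^ 3 * s ≤ s ^ 3 * 1 := mul_le_mul_of_nonneg_left h1 (by positivity)
    nlinarith
  have h40 : 0 ≤ s ^ 4 := by positivity
  rw [Real.sinh_eq, Real.cosh_eq]
  constructor
  · nlinarith [e1.1, e1.2, e2.1, e2.2]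
  · nlinarith [e1.1, e1.2, e2.1, e2.2]

theorem t_B01 : Pool.Agent.N463.MI.B01 := by
  intro s φ h0 h1 hφ
  obtain ⟨hs1, hc1⟩ := both h0 h1
  have hs0 : s ≤ sinh s := Real.self_le_sinh_iff.2 h0.le
  have hc0 := cosh_lower s
  have hk1 := Real.one_sub_sq_div_two_le_cos (x := φ)
  have hk0 := cos_upper φ
  have hk2 := Real.cos_le_one_sub_mul_cos_sq hφ
  have hpi : 2 / π ^ 2 ≥ 1 / 5 := by
    have h2 : π ^ 2 ≤ 10 := by
      have := Real.pi_lt_d2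
      have := Real.pi_pos
      nlinarith
    rw [ge_iff_le, div_le_div_iff₀ (by norm_num) (by positivity)]
    linarith
  have hk3 : φ ^ 2 / 5 ≤ 1 - cos φ := by
    have h2 : 1 / 5 * φ ^ 2 ≤ 2 / π ^ 2 * φ ^ 2 := mul_le_mul_of_nonneg_right hpi (sq_nonneg _)
    linarith
  obtain ⟨D, hD⟩ : ∃ D : ℝ, D = cosh s - cos φ := ⟨_, rfl⟩
  obtain ⟨Q, hQ⟩ : ∃ Q : ℝ, Q = s ^ 2 + φ ^ 2 := ⟨_, rfl⟩
  have hs2 : 0 < s ^ 2 := by positivity
  have hφ2 : 0 ≤ φ ^ 2 := sq_nonneg φ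
  have hDlo : s ^ 2 / 2 + φ ^ 2 / 5 ≤ D := by rw [hD]; linarith
  have hD0 : 0 < D := by linarith
  have hQ0 : 0 < Q := by rw [hQ]; linarith
  have hDQ : (s ^ 2 / 2 + φ ^ 2 / 5) * Q ≤ D * Q := mul_le_mul_of_nonneg_right hDlo hQ0.le
  unfold Pool.Agent.N463.MI.kr
  rw [← hD, ← hQ]
  have e1 : sinh s / D - 2 * s / Q = (Q * sinh s - 2 * s * D) / (D * Q) := by
    field_simp
  have hDQ0 : 0 < D * Q := mul_pos hD0 hQ0
  rw [e1, abs_le, le_div_iff₀ hDQ0, div_le_iff₀ hDQ0]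
  have hQs : Q * s ≤ Q * sinh s := mul_le_mul_of_nonneg_left hs0 hQ0.le
  have hQs' : Q * sinh s ≤ Q * (s + s ^ 3 / 4) := mul_le_mul_of_nonneg_left hs1 hQ0.le
  have hp4 : φ ^ 4 = φ ^ 2 * φ ^ 2 := by ring
  have hs4 : s ^ 4 = s ^ 2 * s ^ 2 := by ring
  constructor
  · -- lower estimate
    have a1 : D ≤ s ^ 2 / 2 + s ^ 4 / 10 + φ ^ 2 / 2 := by rw [hD]; linarith
    have a2 : s * D ≤ s * (s ^ 2 / 2 + s ^ 4 / 10 + φ ^ 2 / 2) := mul_le_mul_of_nonneg_left a1 h0.le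
    have a3 : s ^ 4 / 5 ≤ D * Q := by
      refine le_trans ?_ hDQ
      rw [hQ]
      nlinarith [mul_nonneg hs2.le hφ2, mul_nonneg hφ2 hφ2]
    have a4 : s * (s ^ 4 / 5) ≤ s * (D * Q) := mul_le_mul_of_nonneg_left a3 h0.le
    have a5 : Q * s - 2 * (s * (s ^ 2 / 2 + s ^ 4 / 10 + φ ^ 2 / 2)) = -(s * (s ^ 4 / 5)) := by
      rw [hQ]; ring
    linarith
  · -- upper estimate
    have a1 : s ^ 2 / 2 + φ ^ 2 / 2 - φ ^ 4 / 24 ≤ D := by rw [hD]; linarith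
    have a2 : s * (s ^ 2 / 2 + φ ^ 2 / 2 - φ ^ 4 / 24) ≤ s * D := mul_le_mul_of_nonneg_left a1 h0.le
    have a3 : Q * s ^ 2 / 4 + φ ^ 4 / 12 ≤ D * Q := by
      refine le_trans ?_ hDQ
      rw [hQ]
      nlinarith [mul_nonneg hs2.le hφ2, mul_nonneg hφ2 hφ2, mul_nonneg hs2.le hs2.le]
    have a4 : s * (Q * s ^ 2 / 4 + φ ^ 4 / 12) ≤ s * (D * Q) := mul_le_mul_of_nonneg_left a3 h0.le
    have a5 : Q * (s + s ^ 3 / 4) - 2 * (s * (s ^ 2 / 2 + φ ^ 2 / 2 - φ ^ 4 / 24)) =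
        s * (Q * s ^ 2 / 4 + φ ^ 4 / 12) := by
      rw [hQ]; ring
    linarith

end Pool.Agent.N123.MIB01
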